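import Pool.Agent.helper35.LV.Spec

/-!
# Project LV, row K1: a transvection with centre `v`
-/

set_option autoImplicit false

namespace Pool.Agent.LV

open Matrix Pool.Agent.H48SL Pool.Agent.UG

theorem K1_third {n : ℕ} (hn : 3 ≤ n) (s a : Fin n) : ∃ b : Fin n, b ≠ s ∧ b ≠ a := by
  by_contra h
  push Not at h
  have h1 : (Finset.univ : Finset (Fin n)) ⊆ {s, a} := by
    intro b _
    rw [Finset.mem_insert, Finset.mem_singleton]
    by_cases hb : b = s
    · exact Or.inl hb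
    · exact Or.inr (h b hb)
  have h2 := Finset.card_le_card h1
  rw [Finset.card_univ, Fintype.card_fin] at h2
  have h3 := Finset.card_le_two (a := s) (b := a)
  omega

/-- the row `ψ` and the vector `x` -/
theorem K1_rows {n : ℕ} (hn : 3 ≤ n) (v : Fin n → ℤ) (hv : v ≠ 0) (β : Fin n → ℚ) (hβ : β ≠ 0)
    (hβv : β ⬝ᵥ castV v = 0) : ∃ ψ x : Fin n → ℤ, ψ ≠ 0 ∧ ψ ⬝ᵥ v = 0 ∧ ψ ⬝ᵥ x = 0 ∧ β ⬝ᵥ castV x ≠ 0 := by
  obtain ⟨s, hs⟩ := Function.ne_iff.1 hβ
  have ha : ∃ a, a ≠ s ∧ v a ≠ 0 := by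
    by_contra h
    push Not at h
    have h1 : castV v = Pi.single s (v s : ℚ) := by
      funext i
      by_cases hi : i = s
      · subst hi
        rw [Pi.single_eq_same]
        rfl
      · rw [Pi.single_eq_of_ne hi]
        show ((v i : ℤ) : ℚ) = 0
        rw [h i hi, Int.cast_zero]
    rw [h1, dotProduct_single] at hβv
    have h2 : (v s : ℚ) = 0 := (mul_eq_zero.1 hβv).resolve_left hs
    apply hv
    funext i
    by_cases hi : i = s
    · subst hi
      exact_mod_cast h2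
    · exact h i hi
  obtain ⟨a, has, hva⟩ := ha
  obtain ⟨b, hbs, hba⟩ := K1_third hn s a
  refine ⟨Pi.single a (v b) - Pi.single b (v a), Pi.single s 1, ?_, ?_, ?_, ?_⟩
  · intro h
    have h1 := congrFun h b
    rw [Pi.sub_apply, Pi.single_eq_of_ne hba, Pi.single_eq_same, Pi.zero_apply] at h1
    exact hva (by linarith)
  · rw [sub_dotProduct, single_dotProduct, single_dotProduct]
    ring
  · rw [dotProduct_single, Pi.sub_apply, Pi.single_eq_of_ne (Ne.symm has), Pi.single_eq_of_ne (Ne.symm hbs)]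
    ring
  · rw [castV_single, dotProduct_single, mul_one]
    exact hs

theorem K1 (hFCQ : FCQ_stmt) : K1_stmt := by
  intro n hn H hH v hv hPV hNoK
  unfold NoK at hNoK
  push Not at hNoK
  obtain ⟨h₀, hh₀, β, hβv, hqg, hne⟩ := hNoK
  have hcv : castV v ≠ 0 := fun h => hv (castV_inj (h.trans castV_zero.symm))
  have hβ : β ≠ 0 := by
    rintro rfl
    apply hne
    apply qg_inj
    rw [hqg, qg_one, vecMulVec_zero, add_zero]
  obtain ⟨ψ, x, hψ, hψv, hψx, hβx⟩ := K1_rows hn v hv β hβ hβv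
  obtain ⟨j, hj, h, hh, β', hβ'v, hq⟩ := hPV x ψ hψv hψx
  have hψv' : castV ψ ⬝ᵥ castV v = 0 := by rw [castV_dot, hψv, Int.cast_zero]
  have hψx' : castV ψ ⬝ᵥ castV x = 0 := by rw [castV_dot, hψx, Int.cast_zero]
  have hcψ : castV ψ ≠ 0 := fun h => hψ (castV_inj (h.trans castV_zero.symm))
  have hj' : (j : ℚ) ≠ 0 := by
    have : 0 < j := hj
    exact_mod_cast this.ne'
  -- `h` fixes `v`
  have hhv : qg h *ᵥ castV v = castV v := by
    rw [hq, add_mulVec, add_mulVec, one_mulVec, vecMulVec_mulVec, vecMulVec_mulVec, hψv', hβ'v]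
    simp
  refine hFCQ n hn H hH h₀ hh₀ h hh (castV v) β hcv hβ hβv hqg (by rw [hhv, hβv]) (Or.inr ?_)
  intro k hk m hkm
  -- the rows
  have e1 : β ᵥ* qg h = β + ((j : ℚ) * (β ⬝ᵥ castV x)) • castV ψ := by
    rw [hq, vecMul_add, vecMul_add, vecMul_one, vecMul_vecMulVec, vecMul_vecMulVec, hβv, zero_smul, add_zero,
      dotProduct_smul, smul_eq_mul]
  have e2 : castV ψ ᵥ* qg h = castV ψ := by
    rw [hq, vecMul_add, vecMul_add, vecMul_one, vecMul_vecMulVec, vecMul_vecMulVec, hψv', zero_smul, add_zero,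
      dotProduct_smul, hψx', smul_zero, zero_smul, add_zero]
  have e3 : ∀ k : ℕ, β ᵥ* qg (h ^ k) = β + ((k : ℚ) * ((j : ℚ) * (β ⬝ᵥ castV x))) • castV ψ := by
    intro k
    induction k with
    | zero => rw [pow_zero, qg_one, vecMul_one, Nat.cast_zero, zero_mul, zero_smul, add_zero]
    | succ k ih =>
      rw [pow_succ, qg_mul, ← vecMul_vecMul, ih, add_vecMul, smul_vecMul, e1, e2, add_assoc, ← add_smul]
      congr 2
      push_cast
      ring
  let F : Subgroup (SLZ n) :=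
    { carrier := {g | β ᵥ* qg g = β}
      one_mem' := by
        show β ᵥ* qg 1 = β
        rw [qg_one, vecMul_one]
      mul_mem' := by
        intro a b ha hb
        show β ᵥ* qg (a * b) = β
        have ha' : β ᵥ* qg a = β := ha
        have hb' : β ᵥ* qg b = β := hb
        rw [qg_mul, ← vecMul_vecMul, ha', hb']
      inv_mem' := by
        intro a ha
        show β ᵥ* qg a⁻¹ = β
        have ha' : β ᵥ* qg a = β := ha
        calc β ᵥ* qg a⁻¹ = (β ᵥ* qg a) ᵥ* qg a⁻¹ := by rw [ha']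
          _ = β := by rw [vecMul_vecMul, qg_mul_inv, vecMul_one] }
  have e4 : h₀ ∈ F := by
    show β ᵥ* qg h₀ = β
    rw [hqg, vecMul_add, vecMul_one, vecMul_vecMulVec, hβv, zero_smul, add_zero]
  have e5 : β ᵥ* qg (h₀ ^ m) = β := F.zpow_mem e4 m
  rw [← hkm, e3 k] at e5
  have e6 : ((k : ℚ) * ((j : ℚ) * (β ⬝ᵥ castV x))) • castV ψ = 0 := by
    have := congrArg (fun w => w - β) e5
    simpa using this
  have hk' : (k : ℚ) ≠ 0 := by
    have : 0 < k := hk
    exact_mod_cast this.ne'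
  rcases smul_eq_zero.1 e6 with h1 | h1
  · exact mul_ne_zero hk' (mul_ne_zero hj' hβx) h1
  · exact hcψ h1

end Pool.Agent.LV
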